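import Pool.Agent.V11134.Cov.Main

/-!
# MP_a018d0_co: vertices covered by `s` of `r` colours just above `s = √r`
-/

set_option autoImplicit false

namespace Pool.Agent.Results.MP_a018d0_co.UpperBound

open Filter Topology Pool.Agent.V11134.Cov

/-- There is an absolute constant `C > 0` such that for every function `s = s(r)` with `s(r) / √r → ∞` and
`s(r) / √(r log₂ r) → 0`, for all sufficiently large `r` and all sufficiently large `n` (in terms of `r`),
`g(n, r, s) ≤ (1 - exp (-C s² / r)) n`. -/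
theorem result : ∃ C : ℝ, 0 < C ∧ ∀ s : ℕ → ℕ,
    Tendsto (fun r : ℕ => (s r : ℝ) / √(r : ℝ)) atTop atTop →
    Tendsto (fun r : ℕ => (s r : ℝ) / √((r : ℝ) * Real.logb 2 r)) atTop (𝓝 0) →
    ∀ᶠ r : ℕ in atTop, ∀ᶠ n : ℕ in atTop,
      (g n r (s r) : ℝ) ≤ (1 - Real.exp (-C * (s r : ℝ) ^ 2 / r)) * n := by
  refine ⟨133, by norm_num, fun s h1 h2 => ?_⟩
  -- `log₂ r ≤ r / 64` eventually
  have hlog : ∀ᶠ r : ℕ in atTop, Real.logb 2 (r : ℝ) ≤ (r : ℝ) / 64 := by
    have h3 : Tendsto (fun x : ℝ => Real.log x / x) atTop (𝓝 0) := by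
      have := Real.tendsto_pow_log_div_mul_add_atTop 1 0 1 one_ne_zero
      simpa using this
    have h4 : ∀ᶠ x : ℝ in atTop, Real.log x / x < Real.log 2 / 64 :=
      h3.eventually (gt_mem_nhds (by positivity))
    have h5 := tendsto_natCast_atTop_atTop.eventually (h4.and (eventually_gt_atTop (0 : ℝ)))
    filter_upwards [h5] with r hr
    obtain ⟨hr1, hr2⟩ := hr
    rw [div_lt_iff₀ hr2] at hr1
    rw [Real.logb, div_le_iff₀ (by positivity)]
    linarith
  have hlow : ∀ᶠ r : ℕ in atTop, (1 : ℝ) ≤ (s r : ℝ) / √(r : ℝ) := h1.eventually_ge_atTop 1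
  have hup : ∀ᶠ r : ℕ in atTop, (s r : ℝ) / √((r : ℝ) * Real.logb 2 r) < 1 :=
    h2.eventually (gt_mem_nhds one_pos)
  filter_upwards [hlog, hlow, hup, eventually_ge_atTop 2] with r hr1 hr2 hr3 hr4
  have hrR : (2 : ℝ) ≤ r := by exact_mod_cast hr4
  have hrpos : (0 : ℝ) < r := by linarith
  have hsq : 0 < √(r : ℝ) := Real.sqrt_pos.2 hrpos
  rw [le_div_iff₀ hsq, one_mul] at hr2
  have hs0 : (0 : ℝ) ≤ s r := Nat.cast_nonneg _
  have hA : (r : ℝ) ≤ (s r : ℝ) ^ 2 := by
    have := Real.sq_sqrt hrpos.le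
    nlinarith
  have hlogpos : 0 < Real.logb 2 (r : ℝ) := Real.logb_pos (by norm_num) (by linarith)
  have hprod : 0 < (r : ℝ) * Real.logb 2 r := by positivity
  rw [div_lt_one (Real.sqrt_pos.2 hprod)] at hr3
  have hB : (s r : ℝ) ≤ r / 8 := by
    have h5 : √((r : ℝ) * Real.logb 2 r) ≤ r / 8 := by
      rw [Real.sqrt_le_left (by positivity)]
      nlinarith
    linarith
  have hA' : r ≤ (s r) ^ 2 := by exact_mod_cast hA
  have hB' : 8 * s r ≤ r := by
    have : (8 : ℝ) * s r ≤ r := by linarith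
    exact_mod_cast this
  have hs1 : 1 ≤ s r := by
    have : 0 < s r := by
      have : (0 : ℝ) < s r := by linarith
      exact_mod_cast this
    omega
  obtain ⟨n0, hn0⟩ := g_le hs1 hA' hB'
  filter_upwards [eventually_ge_atTop n0] with n hn
  exact hn0 n hn

end Pool.Agent.Results.MP_a018d0_co.UpperBound
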